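import Mathlib
import Pool.Agent.J4H38.GSX.Stm6

/-!
# Partial integration on a dyadic block
-/

set_option autoImplicit false

open MeasureTheory Set Filter Topology

namespace Pool.Agent.J4H79.GS5

noncomputable section

theorem t_PIB : Pool.Agent.J4H38.GSX.S_PIB := by
  intro k Y hY
  have h2pi : (1 : ℝ) ≤ 2 * Real.pi := by have := Real.pi_gt_three; linarith
  have h2pip : (0 : ℝ) < 2 * Real.pi := by linarith
  refine ⟨(2 * Real.pi) ^ k * (2 + k * (1 + Y)), by positivity, ?_⟩
  intro z j E p hz0 hz1 hzY hp hD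
  set a : ℝ := (2 : ℝ) ^ j with ha
  have hb : (2 : ℝ) ^ (j + 1) = 2 * a := by rw [ha, pow_succ]; ring
  rw [hb] at hD ⊢
  have ha1 : 1 ≤ a := one_le_pow₀ (by norm_num)
  have hap : 0 < a := by linarith
  have hE0 : 0 ≤ E := le_trans (norm_nonneg _) (hD a le_rfl (by linarith))
  set c : ℂ := -1 - k * z with hc
  set A : ℂ := (2 * Real.pi : ℂ) ^ (k * z - 1) with hA
  have hkz : (k * z : ℂ).re = k * z.re := by
    rw [Complex.mul_re, Complex.natCast_re, Complex.natCast_im, zero_mul, sub_zero]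
  have hkz0 : 0 ≤ (k : ℝ) * z.re := mul_nonneg (Nat.cast_nonneg _) hz0
  have hcre : c.re = -1 - k * z.re := by
    rw [hc, Complex.sub_re, Complex.neg_re, Complex.one_re, hkz]
  have hAn : ‖A‖ ≤ (2 * Real.pi) ^ k := by
    have h1 : A = (((2 * Real.pi : ℝ)) : ℂ) ^ (k * z - 1) := by rw [hA]; push_cast; rfl
    rw [h1, Complex.norm_cpow_eq_rpow_re_of_pos h2pip, Complex.sub_re, Complex.one_re, hkz,
      ← Real.rpow_natCast]
    apply Real.rpow_le_rpow_of_exponent_le h2pi
    have : (k : ℝ) * z.re ≤ k := by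
      calc (k : ℝ) * z.re ≤ k * 1 := mul_le_mul_of_nonneg_left hz1 (Nat.cast_nonneg _)
        _ = k := mul_one _
    linarith
  have hcn : ‖c‖ ≤ 1 + k * (1 + Y) := by
    have hzn : ‖z‖ ≤ 1 + Y := by
      calc ‖z‖ ≤ |z.re| + |z.im| := Complex.norm_le_abs_re_add_abs_im z
        _ ≤ 1 + Y := by
          rw [abs_of_nonneg hz0]
          linarith
    calc ‖c‖ ≤ ‖(-1 : ℂ)‖ + ‖(k * z : ℂ)‖ := norm_sub_le _ _
      _ = 1 + k * ‖z‖ := by rw [norm_neg, norm_one, norm_mul, Complex.norm_natCast]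
      _ ≤ 1 + k * (1 + Y) := by
        have := mul_le_mul_of_nonneg_left hzn (Nat.cast_nonneg k (α := ℝ))
        linarith
  -- the two functions
  have hcpow : ∀ x : ℝ, a ≤ x → ‖(x : ℂ) ^ c‖ ≤ 1 / a := by
    intro x hx
    have hxp : 0 < x := by linarith
    rw [Complex.norm_cpow_eq_rpow_re_of_pos hxp, hcre]
    calc x ^ (-1 - (k : ℝ) * z.re) ≤ x ^ (-1 : ℝ) :=
          Real.rpow_le_rpow_of_exponent_le (by linarith) (by linarith)
      _ = 1 / x := by rw [Real.rpow_neg_one, one_div]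
      _ ≤ 1 / a := one_div_le_one_div_of_le hap hx
  have hcpow2 : ∀ x : ℝ, a ≤ x → ‖(x : ℂ) ^ (c - 1)‖ ≤ 1 / a ^ 2 := by
    intro x hx
    have hxp : 0 < x := by linarith
    rw [Complex.norm_cpow_eq_rpow_re_of_pos hxp, Complex.sub_re, Complex.one_re, hcre]
    calc x ^ (-1 - (k : ℝ) * z.re - 1) ≤ x ^ (-(2 : ℕ) : ℝ) :=
          Real.rpow_le_rpow_of_exponent_le (by linarith) (by push_cast; linarith)
      _ = 1 / x ^ 2 := by rw [Real.rpow_neg hxp.le, Real.rpow_natCast, one_div]
      _ ≤ 1 / a ^ 2 := by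
        apply one_div_le_one_div_of_le (by positivity)
        exact pow_le_pow_left₀ hap.le hx 2
  have hu : ∀ x ∈ uIcc a (2 * a), HasDerivAt (fun t : ℝ => A * (t : ℂ) ^ c)
      (A * (c * (x : ℂ) ^ (c - 1))) x := by
    intro x hx
    rw [uIcc_of_le (by linarith)] at hx
    have hxp : 0 < x := by linarith [hx.1]
    have h1 : HasDerivAt (fun w : ℂ => w ^ c) (c * (x : ℂ) ^ (c - 1) * 1) (x : ℂ) :=
      (hasDerivAt_id (x : ℂ)).cpow_const (Or.inl (by simpa using hxp))
    rw [mul_one] at h1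
    exact h1.comp_ofReal.const_mul A
  have hv : ∀ x ∈ uIcc a (2 * a), HasDerivAt (fun T : ℝ => ∫ t in a..T, p t) (p x) x := by
    intro x _
    exact intervalIntegral.integral_hasDerivAt_right (hp.intervalIntegrable _ _)
      (hp.stronglyMeasurableAtFilter _ _) hp.continuousAt
  have hu' : IntervalIntegrable (fun x : ℝ => A * (c * (x : ℂ) ^ (c - 1))) volume a (2 * a) := by
    apply ContinuousOn.intervalIntegrable
    intro x hx
    rw [uIcc_of_le (by linarith)] at hx
    have hxp : 0 < x := by linarith [hx.1]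
    apply ContinuousAt.continuousWithinAt
    apply ContinuousAt.mul continuousAt_const
    apply ContinuousAt.mul continuousAt_const
    exact Complex.continuousAt_ofReal_cpow_const _ _ (Or.inr hxp.ne')
  have hparts := intervalIntegral.integral_mul_deriv_eq_deriv_mul hu hv hu'
    (hp.intervalIntegrable _ _)
  rw [hparts, intervalIntegral.integral_same, mul_zero, sub_zero]
  have hb1 : ‖A * ((2 * a : ℝ) : ℂ) ^ c * ∫ t in a..(2 * a), p t‖ ≤
      (2 * Real.pi) ^ k * (1 / a) * E := by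
    rw [norm_mul, norm_mul]
    apply mul_le_mul _ (hD _ (by linarith) le_rfl) (norm_nonneg _) (by positivity)
    exact mul_le_mul hAn (hcpow _ (by linarith)) (norm_nonneg _) (by positivity)
  have hb2 : ‖∫ x in a..(2 * a), A * (c * (x : ℂ) ^ (c - 1)) * ∫ t in a..x, p t‖ ≤
      ((2 * Real.pi) ^ k * ((1 + k * (1 + Y)) * (1 / a ^ 2)) * E) * |2 * a - a| := by
    apply intervalIntegral.norm_integral_le_of_norm_le_const
    intro x hx
    rw [uIoc_of_le (by linarith)] at hx
    rw [norm_mul, norm_mul, norm_mul]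
    apply mul_le_mul _ (hD _ hx.1.le hx.2) (norm_nonneg _) (by positivity)
    apply mul_le_mul hAn _ (by positivity) (by positivity)
    exact mul_le_mul hcn (hcpow2 _ hx.1.le) (norm_nonneg _) (by positivity)
  refine le_trans (norm_sub_le _ _) (le_trans (add_le_add hb1 hb2) (le_of_eq ?_))
  have : |2 * a - a| = a := by rw [show 2 * a - a = a by ring, abs_of_pos hap]
  rw [this]
  field_simp
  ring

end

end Pool.Agent.J4H79.GS5
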