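import Mathlib
import Pool.Agent.J4H38.GSX.Stm6

/-!
# Continuity of the sum of the dyadic blocks up to the line and the pole
-/

set_option autoImplicit false

open MeasureTheory Set Filter Topology

namespace Pool.Agent.J4H79.GS5

noncomputable section

/-- the retraction onto the strip `0 ≤ Re z ≤ r` -/
def rho (r : ℝ) (z : ℂ) : ℂ := ⟨max 0 (min r z.re), z.im⟩

lemma rho_cont (r : ℝ) : Continuous (rho r) := by
  have h : (fun z : ℂ => rho r z) = fun z : ℂ => ((max 0 (min r z.re) : ℝ) : ℂ) + (z.im : ℂ) * Complex.I := by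
    funext z
    apply Complex.ext <;> simp [rho]
  change Continuous (fun z : ℂ => rho r z)
  rw [h]
  fun_prop

lemma rho_nonneg (r : ℝ) (z : ℂ) : 0 ≤ (rho r z).re := le_max_left _ _

lemma rho_le (r : ℝ) (hr : 0 ≤ r) (z : ℂ) : (rho r z).re ≤ r := max_le hr (min_le_left _ _)

lemma rho_eq (r : ℝ) (z : ℂ) (h0 : 0 ≤ z.re) (h1 : z.re ≤ r) : rho r z = z := by
  apply Complex.ext
  · simp only [rho]
    rw [min_eq_right h1, max_eq_right h0]
  · rfl

lemma cont_H (τ r : ℝ) (hτ : 0 < τ) (G : ℂ → ℂ) (hG : DifferentiableOn ℂ G {s : ℂ | 0 < s.re}) :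
    Continuous (fun p : ℂ × ℝ => G (τ + rho r p.1 / 2 + p.2 * Complex.I) *
      G (τ + rho r p.1 / 2 - p.2 * Complex.I)) := by
  have hc := (rho_cont r).comp (continuous_fst (X := ℂ) (Y := ℝ))
  have hc' : Continuous (fun p : ℂ × ℝ => rho r p.1) := hc
  apply Continuous.mul
  · apply hG.continuousOn.comp_continuous
    · fun_prop
    · intro p
      have := rho_nonneg r p.1
      simp only [mem_setOf_eq, Complex.add_re, Complex.ofReal_re, Complex.mul_re, Complex.I_re,
        Complex.I_im, Complex.ofReal_im, Complex.div_ofNat_re]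
      linarith
  · apply hG.continuousOn.comp_continuous
    · fun_prop
    · intro p
      have := rho_nonneg r p.1
      simp only [mem_setOf_eq, Complex.add_re, Complex.sub_re, Complex.ofReal_re, Complex.mul_re,
        Complex.I_re, Complex.I_im, Complex.ofReal_im, Complex.div_ofNat_re]
      linarith

lemma cont_m (k : ℕ) (τ r : ℝ) (hr : 0 ≤ r) (hτr : τ + r / 2 < 1 / 2) (M : ℂ → ℂ)
    (hM : DifferentiableOn ℂ M {b : ℂ | 1 / 2 < b.re}) :
    Continuous (fun p : ℂ × ℝ => M (1 - τ - rho r p.1 / 2) *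
      (2 * Real.pi : ℂ) ^ (k * rho r p.1 - 1) *
      (((max p.2 1 : ℝ) : ℂ)) ^ (-1 - k * rho r p.1)) := by
  have hc' : Continuous (fun p : ℂ × ℝ => rho r p.1) := (rho_cont r).comp continuous_fst
  apply Continuous.mul
  apply Continuous.mul
  · apply hM.continuousOn.comp_continuous
    · fun_prop
    · intro p
      have := rho_le r hr p.1
      simp only [mem_setOf_eq, Complex.sub_re, Complex.ofReal_re, Complex.one_re,
        Complex.div_ofNat_re]
      linarith
  · apply Continuous.const_cpow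
    · fun_prop
    · left
      have := Real.pi_ne_zero
      simp [this]
  · apply Continuous.cpow
    · fun_prop
    · fun_prop
    · intro p
      left
      rw [Complex.ofReal_re]
      exact lt_of_lt_of_le one_pos (le_max_right _ _)

theorem t_PSI : Pool.Agent.J4H38.GSX.S_PSI := by
  intro k j₀ τ r Y δ C G M hk hτ hr hτr hδ hG hM hint hblock
  set R : Set ℂ := {z : ℂ | 0 ≤ z.re ∧ z.re ≤ r ∧ |z.im| ≤ Y} with hR
  set H : ℂ → ℝ → ℂ := fun z t => G (τ + z / 2 + t * Complex.I) * G (τ + z / 2 - t * Complex.I)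
    with hH
  set m : ℂ → ℝ → ℂ := fun z t => M (1 - τ - z / 2) * (2 * Real.pi : ℂ) ^ (k * z - 1) *
    (t : ℂ) ^ (-1 - k * z) with hm
  set T0 : ℝ := (2 : ℝ) ^ j₀ with hT0
  have hT01 : 1 ≤ T0 := one_le_pow₀ (by norm_num)
  have hT0p : 0 < T0 := by linarith
  set E : ℕ → ℂ → ℂ := fun n z => ∫ t in ((2 : ℝ) ^ (j₀ + n))..(2 ^ (j₀ + n + 1)), (H z t - m z t)
    with hE
  -- continuity of the blocks
  have hEc : ∀ n, ContinuousOn (E n) R := by
    intro n
    have hc : Continuous (Function.uncurry (fun (z : ℂ) (t : ℝ) =>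
        G (τ + rho r z / 2 + t * Complex.I) * G (τ + rho r z / 2 - t * Complex.I) -
        M (1 - τ - rho r z / 2) * (2 * Real.pi : ℂ) ^ (k * rho r z - 1) *
          (((max t 1 : ℝ) : ℂ)) ^ (-1 - k * rho r z))) :=
      (cont_H τ r hτ G hG).sub (cont_m k τ r hr.le hτr M hM)
    have h1 := intervalIntegral.continuous_parametric_intervalIntegral_of_continuous'
      (μ := volume) hc ((2 : ℝ) ^ (j₀ + n)) (2 ^ (j₀ + n + 1))
    refine h1.continuousOn.congr ?_
    intro z hz
    simp only [hE]
    apply intervalIntegral.integral_congr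
    intro t ht
    rw [uIcc_of_le (pow_le_pow_right₀ (by norm_num) (by omega))] at ht
    have ht1 : max t 1 = t := max_eq_left (le_trans (one_le_pow₀ (by norm_num)) ht.1)
    simp only [hH, hm]
    rw [ht1, rho_eq r z hz.1 hz.2.1]
  have hE0 : ContinuousOn (fun z => ∫ t in (0 : ℝ)..T0, H z t) R := by
    have hc : Continuous (Function.uncurry (fun (z : ℂ) (t : ℝ) =>
        G (τ + rho r z / 2 + t * Complex.I) * G (τ + rho r z / 2 - t * Complex.I))) :=
      cont_H τ r hτ G hG
    have h1 := intervalIntegral.continuous_parametric_intervalIntegral_of_continuous'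
      (μ := volume) hc 0 T0
    refine h1.continuousOn.congr ?_
    intro z hz
    simp only [hH]
    rw [rho_eq r z hz.1 hz.2.1]
  -- the bound
  set u : ℕ → ℝ := fun n => C * (2 : ℝ) ^ (-(δ * ((j₀ + n : ℕ) : ℝ))) with hu
  have hus : Summable u := by
    have h1 : u = fun n : ℕ => (C * (2 : ℝ) ^ (-(δ * (j₀ : ℝ)))) * ((2 : ℝ) ^ (-δ)) ^ n := by
      funext n
      simp only [hu]
      rw [← Real.rpow_natCast, ← Real.rpow_mul (by norm_num), mul_assoc,
        ← Real.rpow_add (by norm_num)]
      congr 2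
      push_cast
      ring
    rw [h1]
    apply Summable.mul_left
    apply summable_geometric_of_lt_one (by positivity)
    exact Real.rpow_lt_one_of_one_lt_of_neg (by norm_num) (by linarith)
  have hub : ∀ n z, z ∈ R → ‖E n z‖ ≤ u n := by
    intro n z hz
    exact hblock z hz.1 hz.2.1 hz.2.2 (j₀ + n) (by omega)
  have hts : ContinuousOn (fun z => ∑' n, E n z) R := continuousOn_tsum hEc hus hub
  -- the main term
  set F : ℂ → ℂ := fun z => M (1 - τ - z / 2) * (2 * Real.pi : ℂ) ^ (k * z - 1) *
    (T0 : ℂ) ^ (-(k * z)) / (Real.pi * k) with hF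
  set U : Set ℂ := {z : ℂ | z.re < 1 - 2 * τ} with hU
  have hUo : IsOpen U := isOpen_lt Complex.continuous_re continuous_const
  have h0U : (0 : ℂ) ∈ U := by
    simp only [hU, mem_setOf_eq, Complex.zero_re]; linarith
  have hRU : R ⊆ U := by
    intro z hz
    simp only [hU, mem_setOf_eq]
    have := hz.2.1
    linarith
  have hpi : (2 * Real.pi : ℂ) ≠ 0 := by simp [Real.pi_ne_zero]
  have hpi' : (Real.pi : ℂ) ≠ 0 := by simp [Real.pi_ne_zero]
  have hT0c : (T0 : ℂ) ≠ 0 := by exact_mod_cast hT0p.ne'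
  have hkc : (k : ℂ) ≠ 0 := by exact_mod_cast hk.ne'
  have hFd : DifferentiableOn ℂ F U := by
    intro z hz
    have hMo : IsOpen {b : ℂ | 1 / 2 < b.re} := isOpen_lt continuous_const Complex.continuous_re
    have h1 : DifferentiableAt ℂ M (1 - τ - z / 2) := by
      apply (hM _ _).differentiableAt (hMo.mem_nhds _) <;>
      · simp only [mem_setOf_eq, Complex.sub_re, Complex.ofReal_re, Complex.one_re,
          Complex.div_ofNat_re]
        simp only [hU, mem_setOf_eq] at hz
        linarith
    have h2 : DifferentiableAt ℂ (fun z : ℂ => M (1 - τ - z / 2)) z := by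
      have h3 : DifferentiableAt ℂ (fun z : ℂ => 1 - (τ : ℂ) - z / 2) z := by fun_prop
      exact DifferentiableAt.comp z (f := fun z : ℂ => 1 - (τ : ℂ) - z / 2) (g := M) h1 h3
    have h4 : DifferentiableAt ℂ (fun z : ℂ => (2 * Real.pi : ℂ) ^ (k * z - 1)) z := by
      apply DifferentiableAt.const_cpow (by fun_prop)
      left; exact hpi
    have h5 : DifferentiableAt ℂ (fun z : ℂ => (T0 : ℂ) ^ (-(k * z))) z := by
      apply DifferentiableAt.const_cpow (by fun_prop)
      left; exact hT0c
    exact (((h2.mul h4).mul h5).div_const _).differentiableWithinAt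
  have hds : ContinuousOn (dslope F 0) R := by
    apply ContinuousOn.mono _ hRU
    rw [continuousOn_dslope (hUo.mem_nhds h0U)]
    exact ⟨hFd.continuousOn, (hFd 0 h0U).differentiableAt (hUo.mem_nhds h0U)⟩
  refine ⟨fun z => (1 / Real.pi : ℂ) * ((∫ t in (0 : ℝ)..T0, H z t) + ∑' n, E n z) + dslope F 0 z,
    (ContinuousOn.mul continuousOn_const (hE0.add hts)).add hds, ?_⟩
  intro z hz0 hzr hzY
  have hzR : z ∈ R := ⟨hz0.le, hzr, hzY⟩
  have hzne : z ≠ 0 := by
    rintro rfl
    simp at hz0
  have hHint : Integrable (H z) := hint z hz0 hzr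
  -- the line integral
  have hline : ∫ t : ℝ, H z t = 2 * ∫ t in Ioi (0 : ℝ), H z t := by
    have h1 : ∫ t in Iic (0 : ℝ), H z t = ∫ t in Ioi (0 : ℝ), H z t := by
      have h2 := integral_comp_neg_Iic (0 : ℝ) (H z)
      rw [neg_zero] at h2
      rw [← h2]
      apply setIntegral_congr_fun measurableSet_Iic
      intro t _
      simp only [hH]
      rw [Complex.ofReal_neg, neg_mul, sub_neg_eq_add, ← sub_eq_add_neg, mul_comm]
    rw [← integral_add_compl (measurableSet_Iic : MeasurableSet (Iic (0 : ℝ))) hHint, compl_Iic,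
      h1, two_mul]
  have hsplit : ∫ t in Ioi (0 : ℝ), H z t = (∫ t in (0 : ℝ)..T0, H z t) + ∫ t in Ioi T0, H z t :=
    (intervalIntegral.integral_interval_add_Ioi hHint.integrableOn hHint.integrableOn).symm
  have hre : (-1 - k * z : ℂ).re < -1 := by
    rw [Complex.sub_re, Complex.neg_re, Complex.one_re, Complex.mul_re, Complex.natCast_re,
      Complex.natCast_im, zero_mul, sub_zero]
    have : (0 : ℝ) < k * z.re := mul_pos (by exact_mod_cast hk) hz0
    linarith
  have hmint : IntegrableOn (m z) (Ioi T0) :=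
    (integrableOn_Ioi_cpow_of_lt hre hT0p).const_mul _
  have hfint : IntegrableOn (fun t => H z t - m z t) (Ioi T0) := hHint.integrableOn.sub hmint
  have htail : ∫ t in Ioi T0, H z t = (∑' n, E n z) + ∫ t in Ioi T0, m z t := by
    have h1 : ∫ t in Ioi T0, (H z t - m z t) = ∑' n, E n z := by
      have hlim1 : Tendsto (fun n : ℕ => ∫ t in T0..((2 : ℝ) ^ (j₀ + n)), (H z t - m z t)) atTop
          (𝓝 (∫ t in Ioi T0, (H z t - m z t))) := by
        apply intervalIntegral_tendsto_integral_Ioi _ hfint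
        have h3 : Tendsto (fun n : ℕ => (2 : ℝ) ^ n) atTop atTop :=
          tendsto_pow_atTop_atTop_of_one_lt (by norm_num)
        have h4 : Tendsto (fun n : ℕ => j₀ + n) atTop atTop := by
          apply tendsto_atTop_mono (f := fun n : ℕ => n) (fun n => by omega) tendsto_id
        exact h3.comp h4
      have hsum : ∀ n : ℕ, ∑ i ∈ Finset.range n, E i z =
          ∫ t in T0..((2 : ℝ) ^ (j₀ + n)), (H z t - m z t) := by
        intro n
        have h5 := intervalIntegral.sum_integral_adjacent_intervals (μ := volume)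
          (f := fun t => H z t - m z t) (a := fun i => (2 : ℝ) ^ (j₀ + i)) (n := n) ?_
        · simpa only [hE, hT0, add_zero, add_assoc] using h5
        · intro i _
          have hle : (2 : ℝ) ^ (j₀ + i) ≤ 2 ^ (j₀ + (i + 1)) :=
            pow_le_pow_right₀ (by norm_num) (by omega)
          rw [intervalIntegrable_iff_integrableOn_Ioc_of_le hle]
          apply hfint.mono_set
          intro t ht
          exact lt_of_le_of_lt (pow_le_pow_right₀ (by norm_num) (by omega)) ht.1
      have hsb : Summable (fun n => E n z) :=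
        Summable.of_norm_bounded hus (fun n => hub n z hzR)
      have hlim2 := hsb.hasSum.tendsto_sum_nat
      simp only [hsum] at hlim2
      exact tendsto_nhds_unique hlim1 hlim2
    rw [← h1, integral_sub hHint.integrableOn hmint]
    ring
  have hmval : ∫ t in Ioi T0, m z t = M (1 - τ - z / 2) * (2 * Real.pi : ℂ) ^ (k * z - 1) *
      ((T0 : ℂ) ^ (-(k * z)) / (k * z)) := by
    simp only [hm]
    rw [integral_const_mul, integral_Ioi_cpow_of_lt hre hT0p]
    congr 1
    have h6 : (-1 - k * z : ℂ) + 1 = -(k * z) := by ring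
    rw [h6, neg_div_neg_eq]
  have hFz : F z / z = F 0 / z + dslope F 0 z := by
    rw [dslope_of_ne _ hzne, slope_def_field, sub_zero]
    ring
  have hF0 : F 0 = M (1 - τ) / (2 * Real.pi ^ 2 * k) := by
    simp only [hF]
    rw [zero_div, sub_zero, mul_zero, zero_sub, neg_zero, Complex.cpow_zero, mul_one,
      Complex.cpow_neg_one]
    field_simp
  have hgoal : (1 / Real.pi : ℂ) * ∫ t in Ioi T0, m z t = F z / z := by
    rw [hmval]
    simp only [hF]
    field_simp
  change (1 / (2 * Real.pi) : ℂ) * ∫ t : ℝ, H z t = _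
  rw [hline, hsplit, htail, ← hF0]
  have : (1 / (2 * Real.pi) : ℂ) * (2 * ((∫ t in (0 : ℝ)..T0, H z t) + ((∑' n, E n z) +
      ∫ t in Ioi T0, m z t))) = (1 / Real.pi : ℂ) * ((∫ t in (0 : ℝ)..T0, H z t) + ∑' n, E n z) +
      (1 / Real.pi : ℂ) * ∫ t in Ioi T0, m z t := by
    field_simp
    ring
  rw [this, hgoal, hFz]
  ring

end

end Pool.Agent.J4H79.GS5
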